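import Pool.Agent.Run7.h527.TP.Ex
import Pool.Agent.Results.MP_e734ed_nt.MultiplicativeValues

/-!
# The weak form of Hall's conjecture near aliquot sums, cototients and arithmetic derivatives

Let `g(m)` be the sum `s(m)` of the proper divisors of `m`, the cototient `m - φ(m)`, the arithmetic derivative `m'` (with
`p' = 1` for primes and Leibniz' rule), or any positive combination `α m + β f(m)` with `f = σ`, `φ` or the arithmetic
derivative. Let `G` have steps bounded below by a positive constant and growth at most `v^e`, `C` any constant,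
`0 ≤ δ ≤ 1/2`, `κ ≥ 0` and `e (1/3 - δ/6) + κ < τ ≤ 1`. For all `m ≤ N` which have two prime factors `p ≠ q`, not dividing
`m / (p q) ≥ 2`, with `p q ≥ m^τ`, but at most `N^(1 - η)` of them, the inequality `|y² - x³| > C |x| ^ (1/2 - δ)` holds for ALL
integers `x`, `y` with `y² ≠ x³` and `||x| - G (g m)| ≤ g(m)^κ`. The same is true for `||y| - G (g m)| ≤ g(m)^κ` with
`2/9 - δ/9` in place of `1/3 - δ/6`. For `τ` near `1/3` or `2/9` nearly all integers `m` have such prime factors.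

The functions `g` are not multiplicative, and the number of the solutions of `g(m) = n` is not bounded by a power of the
number of the divisors of `n`. Proof. Write `m = k p q`. Then `g(m) = a p q + b (p + q) + c` with integers `a ≠ 0`, `b`, `c`
which depend on `k` only, and `(a p + b) (a q + b) = a g(m) + b² - a c`. So for given `k ≤ N^(1 - τ)` every value is taken for
at most `N^ε` pairs `p`, `q`, and the exceptional numbers have a power saving by the starting theorem `SparseExceptions`. The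
lemmas `count_x` and `count_y` are those of the starting file `MultiplicativeValues`.
-/

set_option autoImplicit false

namespace Pool.Agent.Results.MP_e734ed_nt.AliquotSums

open Finset
open Pool.Agent.N733.TG (Expanding expanding_pow)
open Pool.Agent.Results.MP_e734ed_nt.MultiplicativeValues (Exc count_x count_y)
open Run7.h527.TP (Bil Two windows aliquot cototient deriv sig comb)

/-- **Theorem.** Let `g` be of the class `Bil`, let `G` have steps `≥ a > 0` and growth at most `v^e`. Let `0 ≤ δ ≤ 1/2`,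
`C` real, `κ ≥ 0` and `τ ≤ 1`.
(1) If `e (1/3 - δ/6) + κ < τ`, there is `η > 0` such that for all large `N`, for all `m ≤ N` with `Two τ m` but at most
`N^(1 - η)`, `|y² - x³| > C |x| ^ (1/2 - δ)` for all integers `x`, `y` with `y² ≠ x³` and `||x| - G (g m)| ≤ g(m)^κ`.
(2) If `e (2/9 - δ/9) + κ < τ`, the same is true for all integers `x`, `y` with `y² ≠ x³` and `||y| - G (g m)| ≤ g(m)^κ`.
(3) The sum of the proper divisors, the cototient, the arithmetic derivative and their positive combinations with the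
identity are examples of such functions `g`, and `α v^e` with `α > 0`, `e ≥ 1` is an example of `G`. -/
theorem result :
    (∀ g : ℕ → ℕ, Bil g → ∀ (G : ℕ → ℝ) (e : ℝ), Expanding G e → ∀ κ τ δ C : ℝ, 0 ≤ κ → τ ≤ 1 → 0 ≤ δ → δ ≤ 1 / 2 →
      (e * (1 / 3 - δ / 6) + κ < τ → ∃ η : ℝ, 0 < η ∧ ∃ N₀ : ℕ, ∀ N : ℕ, N₀ ≤ N →
        ({m : ℕ | 1 ≤ m ∧ m ≤ N ∧ Two τ m ∧ ¬ ∀ x y : ℤ, y ^ 2 ≠ x ^ 3 → |(|x| : ℝ) - G (g m)| ≤ (g m : ℝ) ^ κ →
          C * |(x : ℝ)| ^ (1 / 2 - δ) < |(y : ℝ) ^ 2 - (x : ℝ) ^ 3|}.ncard : ℝ) ≤ (N : ℝ) ^ (1 - η)) ∧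
      (e * (2 / 9 - δ / 9) + κ < τ → ∃ η : ℝ, 0 < η ∧ ∃ N₀ : ℕ, ∀ N : ℕ, N₀ ≤ N →
        ({m : ℕ | 1 ≤ m ∧ m ≤ N ∧ Two τ m ∧ ¬ ∀ x y : ℤ, y ^ 2 ≠ x ^ 3 → |(|y| : ℝ) - G (g m)| ≤ (g m : ℝ) ^ κ →
          C * |(x : ℝ)| ^ (1 / 2 - δ) < |(y : ℝ) ^ 2 - (x : ℝ) ^ 3|}.ncard : ℝ) ≤ (N : ℝ) ^ (1 - η))) ∧
    (Bil aliquot ∧ Bil cototient ∧ Bil deriv ∧
      (∀ α β : ℤ, (∀ m : ℕ, 2 ≤ m → 0 < α * m + β * sig m) → Bil (comb α β sig)) ∧
      (∀ α β : ℤ, (∀ m : ℕ, 2 ≤ m → 0 < α * m + β * Nat.totient m) → Bil (comb α β Nat.totient)) ∧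
      ∀ α β : ℤ, (∀ m : ℕ, 2 ≤ m → 0 < α * m + β * deriv m) → Bil (comb α β deriv)) ∧
    ∀ α e : ℝ, 0 < α → 1 ≤ e → Expanding (fun v => α * (v : ℝ) ^ e) e := by
  refine ⟨fun g hg G e hG κ τ δ C hκ hτ h0 h1 => ⟨fun h2 => ?_, fun h2 => ?_⟩, Run7.h527.TP.examples,
    fun α d hα hd => expanding_pow hα hd⟩
  · obtain ⟨η, hη, N₀, hN₀⟩ := windows (Exc C δ) (fun e => |((e.1 : ℤ) : ℝ)|) hg hG (s := 1 / 3 - δ / 6) (κ := κ)
      (by linarith) hκ h2 hτ (count_x C δ h0 h1)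
    refine ⟨η, hη, N₀, fun N hN => le_trans ?_ (hN₀ N hN)⟩
    have hfin : {m : ℕ | 1 ≤ m ∧ m ≤ N ∧ Two τ m ∧ ∃ t ∈ Exc C δ, |(|((t.1 : ℤ) : ℝ)|) - G (g m)| ≤ (g m : ℝ) ^ κ}.Finite :=
      (Set.finite_Icc 1 N).subset fun m hm => ⟨hm.1, hm.2.1⟩
    refine Nat.cast_le.2 (Set.ncard_le_ncard ?_ hfin)
    rintro m ⟨h3, h4, h4', h5⟩
    push Not at h5
    obtain ⟨x, y, hxy, hw, hcon⟩ := h5
    exact ⟨h3, h4, h4', (x, y), ⟨hxy, hcon⟩, hw⟩
  · obtain ⟨η, hη, N₀, hN₀⟩ := windows (Exc C δ) (fun e => |((e.2 : ℤ) : ℝ)|) hg hG (s := 2 / 9 - δ / 9) (κ := κ)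
      (by linarith) hκ h2 hτ (count_y C δ h0 h1)
    refine ⟨η, hη, N₀, fun N hN => le_trans ?_ (hN₀ N hN)⟩
    have hfin : {m : ℕ | 1 ≤ m ∧ m ≤ N ∧ Two τ m ∧ ∃ t ∈ Exc C δ, |(|((t.2 : ℤ) : ℝ)|) - G (g m)| ≤ (g m : ℝ) ^ κ}.Finite :=
      (Set.finite_Icc 1 N).subset fun m hm => ⟨hm.1, hm.2.1⟩
    refine Nat.cast_le.2 (Set.ncard_le_ncard ?_ hfin)
    rintro m ⟨h3, h4, h4', h5⟩
    push Not at h5
    obtain ⟨x, y, hxy, hw, hcon⟩ := h5
    exact ⟨h3, h4, h4', (x, y), ⟨hxy, hcon⟩, hw⟩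

end Pool.Agent.Results.MP_e734ed_nt.AliquotSums
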