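import Mathlib
import Pool.Agent.Run7.h28.HK.Fin1

/-!
# The inequality of Hall for pairs of integers which are sums of boundedly many algebraic S-units

Let `K` be a number field, `Γ` a finitely generated subgroup of `Kˣ`, `p, q ≥ 1`, `k` and `ε > 0`. There is a constant
`C > 0` such that `max(|x|^p, |y|^q) ^ (1 - 1/p - 1/q - ε) ≤ (C M)^C |y^q - x^p|` for all `M ≥ 1` and all integers `x`, `y`
with `y^q ≠ x^p` of the form `x = ∑ a_j u_j`, `y = ∑ b_j v_j` (`k` terms), `u_j, v_j ∈ Γ`, `a_j, b_j ∈ K` of height at most
`M`. There is no condition on the sizes and heights of the terms. For `p = 3`, `q = 2` this is the weak form of Hall's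
conjecture for all such pairs; for instance for all pairs of values of two given linear recurrence sequences of integers
(with arbitrary indices), where `a_j`, `b_j` are the values of polynomials at the indices.

The starting theorem `HallSUnitSums` of this problem is the case `K = ℚ`.

Proof. `Pool.Agent.Run7.h28.HK`: germs along an ultrafilter; the subspace theorem with slowly moving linear forms
(`Pool.Agent.N750`) shows that the germs of units of moderate height are linearly independent over the field of the slow
germs unless their quotients are slow, and that no cancellation takes place at any place; with weights separating the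
classes of the monomials one puts the pair into a one parameter family and uses a Wronskian, as for Davenport's
inequality; Liouville's inequality gives the lower bound of the Wronskian.
-/

set_option autoImplicit false

namespace Pool.Agent.Results.MP_e734ed_nt.HallAlgebraicSums

open Height

/-- **Main theorem.** -/
theorem result (K : Type) [Field K] [NumberField K] (Γ : Subgroup Kˣ) (hΓ : Γ.FG) (p q k : ℕ)
    (hp : 0 < p) (hq : 0 < q) (ε : ℝ) (hε : 0 < ε) :
    ∃ C : ℝ, 0 < C ∧ ∀ M : ℝ, 1 ≤ M → ∀ (u v : Fin k → Γ) (a b : Fin k → K),
      (∀ j, mulHeight₁ (a j) ≤ M) → (∀ j, mulHeight₁ (b j) ≤ M) → ∀ x y : ℤ,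
      (x : K) = ∑ j, a j * ((u j : Kˣ) : K) → (y : K) = ∑ j, b j * ((v j : Kˣ) : K) →
      y ^ q ≠ x ^ p →
      (max (|(x : ℝ)| ^ p) (|(y : ℝ)| ^ q)) ^ (1 - 1 / (p : ℝ) - 1 / (q : ℝ) - ε) ≤
        (C * M) ^ C * |(y : ℝ) ^ q - (x : ℝ) ^ p| :=
  Pool.Agent.Run7.h28.HK.hallFG Γ hΓ p q k hp hq ε hε

end Pool.Agent.Results.MP_e734ed_nt.HallAlgebraicSums
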