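import Mathlib
import Pool.Agent.Run7.h28.HK.Fin2

/-!
# The inequality of Hall when one of the two integers is arbitrary and the other one is sparse

Let `K` be a number field with an embedding `φ` into the complex numbers, `Γ` a finitely generated subgroup of `Kˣ`,
`p, q ≥ 1`, `k`, `B` and `δ, ε > 0`. There is a constant `C > 0` with
`max(|x|^p, |y|^q) ^ (1 - 1/p - 1/q - ε) ≤ (C M)^C |y^q - x^p|` for all `M ≥ 1`, all integers `x` of the form
`x = v + ∑ a_j u_j` (`k` terms, `v, u_j ∈ Γ`, `a_j ∈ K` of height at most `M`), where the height of `v` is at most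
`M (|x| + 1)^B` and `|φ(x - v)| ≤ M |x|^(1 - δ)`, and ALL integers `y` with `y^q ≠ x^p`.

For `(p, q) = (3, 2)` and for `(p, q) = (2, 3)` this is the weak form of Hall's conjecture for all pairs of integers one of
which is sparse with a gap after its leading term, the other one being arbitrary. For instance
`|y² - F_n³| > c F_n^(1/2 - ε)` and `|F_n² - x³| > c F_n^(1/3 - ε)` for all integers `n`, `x`, `y`, where `F_n` are the
Fibonacci numbers, or the values of any linear recurrence with a dominating root (simple, with constant coefficient); the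
same for all `x` with at most `k` nonzero digits in a fixed base such that the second one occurs after a positive
proportion of the digits; and because of the uniformity in `M` for all `x` in the windows of length `|x|^θ`,
`θ = θ(ε) > 0`, around such numbers.

Proof. `Pool.Agent.Run7.h28.HK`. Suppose that the inequality fails for a sequence of pairs. A truncated binomial series
gives an element `R` of a Galois extension of `K`, a sum of units with coefficients in the field, such that `y` is close to
`R` at one infinite place, and to the conjugates of `R` at the other ones. By the subspace theorem with slowly moving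
linear forms `y` is itself a sum of units with slowly growing coefficients along an ultrafilter. Now the theorem
`HallAlgebraicSums` applies, or rather its proof.
-/

set_option autoImplicit false

namespace Pool.Agent.Results.MP_e734ed_nt.HallOneSparse

open Height

/-- **Main theorem.** -/
theorem result (K : Type) [Field K] [NumberField K] (φ : K →+* ℂ) (Γ : Subgroup Kˣ)
    (hΓ : Γ.FG) (p q k : ℕ) (hp : 0 < p) (hq : 0 < q) (B δ ε : ℝ) (hδ : 0 < δ) (hε : 0 < ε) :
    ∃ C : ℝ, 0 < C ∧ ∀ M : ℝ, 1 ≤ M → ∀ (v : Γ) (u : Fin k → Γ) (a : Fin k → K) (x y : ℤ),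
      (∀ j, mulHeight₁ (a j) ≤ M) → (x : K) = ((v : Kˣ) : K) + ∑ j, a j * ((u j : Kˣ) : K) →
      mulHeight₁ ((v : Kˣ) : K) ≤ M * (|(x : ℝ)| + 1) ^ B →
      ‖φ ((x : K) - ((v : Kˣ) : K))‖ ≤ M * |(x : ℝ)| ^ (1 - δ) → y ^ q ≠ x ^ p →
      (max (|(x : ℝ)| ^ p) (|(y : ℝ)| ^ q)) ^ (1 - 1 / (p : ℝ) - 1 / (q : ℝ) - ε) ≤
        (C * M) ^ C * |(y : ℝ) ^ q - (x : ℝ) ^ p| :=
  Pool.Agent.Run7.h28.HK.hallOne φ Γ hΓ p q k hp hq B δ ε hδ hε

end Pool.Agent.Results.MP_e734ed_nt.HallOneSparse
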