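import Pool.Agent.Run7.h430.TW.KitSlow
import Pool.Agent.Results.MP_e734ed_nt.MultiplicativeValues

/-!
# Hall's inequality for all integers near almost all orbits of Euler's function, with a constant tending to infinity

Let `φ_k` be the `k`-th iterate of Euler's function, `φ_0(m) = m`. Let `f` be a positive multiplicative function of at most
polynomial growth such that `f p ≤ M p` for the large primes `p`, with different values at different large primes; for example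
the identity, Euler's function or the sum of the divisors. Let `G` have steps bounded below by a positive constant and growth
at most `v ^ d`, for example `G v = α v ^ d`. Let `0 ≤ δ ≤ 1/2` and `κ ≥ 0`.

(1) If `d (1/3 - δ/6) + κ < 1`, there is `K(m)` tending to infinity such that for almost all `m`, for ALL `k, a ≤ K(m)`,
`a ≥ 1`, with `v = f(φ_k(m))`, `|y² - x³| > K(m) |x| ^ (1/2 - δ)` for ALL integers `x`, `y` with `y² ≠ x³` and
`||x| - a G(v)| ≤ K(m) v ^ κ`. For `δ = 0` this is more than Hall's inequality: the exponent is `1/2` and the constant tends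
to infinity. For example (`d = 1`, `δ = 0`) one may take all `x` within `φ_k(m) ^ κ` of `a φ_k(m)`, for any `κ < 2/3`.

(2) If `d (2/9 - δ/9) + κ < 1`, the same for all integers `x`, `y` with `y² ≠ x³` and `||y| - a G(v)| ≤ K(m) v ^ κ`.

The iterates of Euler's function are not multiplicative, and the values `φ_k(m)`, `m ≤ N`, form a thin set and are taken with
very large multiplicities; so this does not follow from the number of the exceptional pairs (`SparseExceptions`, starting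
files), which is used here. The tool is `Pool.Agent.N760.IT` (starting files), in the form of `Run7/h430/TW/KitSlow` (multiples,
enlarged windows, families of exceptional sets).
-/

set_option autoImplicit false

namespace Pool.Agent.Results.MP_e734ed_nt.TotientOrbits

open Finset Filter Topology
open Pool.Agent.Results.MP_e734ed_nt.MultiplicativeValues (Exc count_x count_y)

/-- A positive multiplicative function of at most polynomial growth, at most `M p` at the large primes `p` and with different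
values at different large primes. -/
structure Moderate (f : ℕ → ℕ) : Prop where
  mul : ∀ m n : ℕ, Nat.Coprime m n → f (m * n) = f m * f n
  pos : ∀ m : ℕ, 1 ≤ m → 1 ≤ f m
  growth : ∃ C D : ℕ, ∀ m : ℕ, 1 ≤ m → f m ≤ C * m ^ D
  prime : ∃ P M : ℕ, ∀ p : ℕ, P ≤ p → p.Prime → f p ≤ M * p ∧ ∀ q : ℕ, P ≤ q → q.Prime → f q = f p → q = p

/-- The steps of `G` are at least a positive constant, and `G` grows at most like `v ^ d`, `d ≥ 1`. -/
structure Expanding (G : ℕ → ℝ) (d : ℝ) : Prop where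
  one_le : 1 ≤ d
  step : ∃ a : ℝ, 0 < a ∧ ∀ v : ℕ, 1 ≤ v → a ≤ G (v + 1) - G v
  growth : ∃ C : ℝ, ∀ v : ℕ, 1 ≤ v → G v ≤ C * (v : ℝ) ^ d

open Classical in
/-- The proportion of the positive integers `m ≤ N` without the property `P` tends to `0`. -/
def AlmostAll (P : ℕ → Prop) : Prop :=
  Tendsto (fun N : ℕ => (((Icc 1 N).filter (fun m => ¬ P m)).card : ℝ) / N) atTop (𝓝 0)

/-- the value of `f` at the `k`-th iterate of Euler's function -/
def orb (f : ℕ → ℕ) (k m : ℕ) : ℕ := f (Nat.totient^[k] m)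

theorem lm_of {f : ℕ → ℕ} (hf : Moderate f) : Pool.Agent.N733.TG.LM f := ⟨hf.mul, hf.pos, hf.growth, hf.prime⟩

theorem of_lm {f : ℕ → ℕ} (hf : Pool.Agent.N733.TG.LM f) : Moderate f := ⟨hf.mul, hf.pos, hf.growth, hf.prime⟩

theorem ex_of {G : ℕ → ℝ} {d : ℝ} (h : Expanding G d) : Pool.Agent.N733.TG.Expanding G d := ⟨h.one_le, h.step, h.growth⟩

lemma exc_mono (δ : ℝ) (i j : ℕ) (hij : i ≤ j) : Exc (i : ℝ) δ ⊆ Exc (j : ℝ) δ := by
  rintro e ⟨h1, h2⟩
  exact ⟨h1, h2.trans (mul_le_mul_of_nonneg_right (by exact_mod_cast hij) (Real.rpow_nonneg (abs_nonneg _) _))⟩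

/-- **Theorem.** Let `f` be `Moderate`, `G` `Expanding` with exponent `d`, `0 ≤ δ ≤ 1/2`, `κ ≥ 0`. (1) If
`d (1/3 - δ/6) + κ < 1` there is `K(m)` tending to infinity such that for almost all `m`, for all `k, a ≤ K(m)`, `a ≥ 1`:
`K(m) |x| ^ (1/2 - δ) < |y² - x³|` for ALL integers `x`, `y` with `y² ≠ x³` and `||x| - a G(v)| ≤ K(m) v ^ κ`,
`v = f(φ_k(m))`. (2) If `d (2/9 - δ/9) + κ < 1`, the same for all `x`, `y` with `y² ≠ x³` and `||y| - a G(v)| ≤ K(m) v ^ κ`. -/
theorem result :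
    (∀ f : ℕ → ℕ, Moderate f → ∀ (G : ℕ → ℝ) (d : ℝ), Expanding G d → ∀ κ δ : ℝ, 0 ≤ κ → 0 ≤ δ → δ ≤ 1 / 2 →
      (d * (1 / 3 - δ / 6) + κ < 1 → ∃ K : ℕ → ℕ, Tendsto K atTop atTop ∧
        AlmostAll (fun m => ∀ k ≤ K m, ∀ a : ℕ, 1 ≤ a → a ≤ K m → ∀ x y : ℤ, y ^ 2 ≠ x ^ 3 →
          |(|x| : ℝ) - a * G (orb f k m)| ≤ K m * (orb f k m : ℝ) ^ κ →
          K m * |(x : ℝ)| ^ (1 / 2 - δ) < |(y : ℝ) ^ 2 - (x : ℝ) ^ 3|)) ∧
      (d * (2 / 9 - δ / 9) + κ < 1 → ∃ K : ℕ → ℕ, Tendsto K atTop atTop ∧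
        AlmostAll (fun m => ∀ k ≤ K m, ∀ a : ℕ, 1 ≤ a → a ≤ K m → ∀ x y : ℤ, y ^ 2 ≠ x ^ 3 →
          |(|y| : ℝ) - a * G (orb f k m)| ≤ K m * (orb f k m : ℝ) ^ κ →
          K m * |(x : ℝ)| ^ (1 / 2 - δ) < |(y : ℝ) ^ 2 - (x : ℝ) ^ 3|))) ∧
    (Moderate (fun m => m) ∧ Moderate Nat.totient ∧ Moderate (fun m => ∑ d ∈ m.divisors, d)) ∧
    ∀ a d : ℝ, 0 < a → 1 ≤ d → Expanding (fun v => a * (v : ℝ) ^ d) d := by
  refine ⟨fun f hf G d hG κ δ hκ h0 h1 => ⟨fun h2 => ?_, fun h2 => ?_⟩,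
    ⟨of_lm Pool.Agent.N760.IT.lm_id, of_lm Pool.Agent.N733.TG.lm_totient, of_lm Pool.Agent.N733.TG.lm_sigma⟩,
    fun a d ha hd => ?_⟩
  · obtain ⟨K, hK, h3⟩ := Run7.h430.TW.kit_slow (fun j : ℕ => Exc (j : ℝ) δ) (exc_mono δ)
      (fun e => |((e.1 : ℤ) : ℝ)|) (lm_of hf) (ex_of hG) (s := 1 / 3 - δ / 6) (κ := κ) (by linarith) hκ h2
      (fun j => count_x (j : ℝ) δ h0 h1)
    refine ⟨K, hK, Pool.Agent.N826.IT.Orb.almostAll_mono h3 (fun m hm k hk a ha1 ha x y hxy hw => ?_)⟩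
    by_contra hcon
    exact absurd hw (not_le.2 (hm k hk a ha1 ha (x, y) ⟨hxy, not_lt.1 hcon⟩))
  · obtain ⟨K, hK, h3⟩ := Run7.h430.TW.kit_slow (fun j : ℕ => Exc (j : ℝ) δ) (exc_mono δ)
      (fun e => |((e.2 : ℤ) : ℝ)|) (lm_of hf) (ex_of hG) (s := 2 / 9 - δ / 9) (κ := κ) (by linarith) hκ h2
      (fun j => count_y (j : ℝ) δ h0 h1)
    refine ⟨K, hK, Pool.Agent.N826.IT.Orb.almostAll_mono h3 (fun m hm k hk a ha1 ha x y hxy hw => ?_)⟩
    by_contra hcon
    exact absurd hw (not_le.2 (hm k hk a ha1 ha (x, y) ⟨hxy, not_lt.1 hcon⟩))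
  · obtain ⟨h1, h2, h3⟩ := Pool.Agent.N733.TG.expanding_pow ha hd
    exact ⟨h1, h2, h3⟩

end Pool.Agent.Results.MP_e734ed_nt.TotientOrbits
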